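import Pool.Agent.W25.UN.Stm

/-!
# UN-VL: crude lower bounds for sieve products
-/

set_option autoImplicit false

namespace W310.UN.VL

open Finset Filter Topology
open Pool.Agent.H410R2 Pool.Agent.W25.UN

lemma bd_ge (D : ℕ) (hD : 1 ≤ D) : 1 / (D : ℝ) ≤ BD D := by
  unfold BD
  rw [Finset.prod_filter]
  induction D, hD using Nat.le_induction with
  | base => simp [Nat.not_prime_one]
  | succ D hD ih =>
    rw [Finset.prod_Icc_succ_top (by omega)]
    have hD' : (1 : ℝ) ≤ D := by exact_mod_cast hD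
    have h0 : (0 : ℝ) < D := by linarith
    push_cast
    by_cases hp : Nat.Prime (D + 1)
    · rw [if_pos hp]
      have h1 : (0 : ℝ) ≤ 1 - 1 / ((D : ℝ) + 1) := by
        rw [sub_nonneg, div_le_one (by linarith)]
        linarith
      calc 1 / ((D : ℝ) + 1) = 1 / (D : ℝ) * (1 - 1 / ((D : ℝ) + 1)) := by
            field_simp
            ring
        _ ≤ _ := mul_le_mul_of_nonneg_right ih h1
    · rw [if_neg hp, mul_one]
      refine le_trans ?_ ih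
      exact one_div_le_one_div_of_le h0 (by linarith)

lemma factor (κ ν p : ℕ) (hp : 2 * κ < p) (hν : ν ≤ κ) :
    (1 - 1 / (p : ℝ)) ^ (2 * κ) ≤ 1 - (ν : ℝ) / p := by
  have hp0 : (0 : ℝ) < p := by
    have : 0 < p := by omega
    exact_mod_cast this
  have hp1 : (1 : ℝ) ≤ p := by
    have : 1 ≤ p := by omega
    exact_mod_cast this
  set x : ℝ := 1 / (p : ℝ) with hx
  have hx0 : 0 < x := by positivity
  have hx1 : x ≤ 1 := by
    rw [hx, div_le_one hp0]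
    exact hp1
  have hy : (2 * κ : ℕ) * x ≤ 1 := by
    rw [hx, mul_one_div, div_le_one hp0]
    exact_mod_cast hp.le
  have hb : 1 + ((2 * κ : ℕ) : ℝ) * x ≤ (1 + x) ^ (2 * κ) :=
    one_add_mul_le_pow (by linarith) _
  have hy0 : 0 ≤ ((2 * κ : ℕ) : ℝ) * x := by positivity
  have hc : (1 - x) ^ (2 * κ) * (1 + x) ^ (2 * κ) ≤ 1 := by
    rw [← mul_pow]
    exact pow_le_one₀ (mul_nonneg (by linarith) (by linarith)) (by nlinarith)
  have hd : (0 : ℝ) ≤ (1 - x) ^ (2 * κ) := pow_nonneg (by linarith) _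
  have he : (1 - x) ^ (2 * κ) * (1 + ((2 * κ : ℕ) : ℝ) * x) ≤ 1 :=
    (mul_le_mul_of_nonneg_left hb hd).trans hc
  have hf : (1 - x) ^ (2 * κ) ≤ 1 - ((2 * κ : ℕ) : ℝ) * x / 2 := by
    set y : ℝ := ((2 * κ : ℕ) : ℝ) * x with hyd
    have h1 : 1 ≤ (1 - y / 2) * (1 + y) := by nlinarith
    have h2 : (1 - x) ^ (2 * κ) * (1 + y) ≤ (1 - y / 2) * (1 + y) := he.trans h1
    exact le_of_mul_le_mul_right h2 (by linarith)
  refine hf.trans ?_
  have hν' : (ν : ℝ) ≤ κ := by exact_mod_cast hν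
  have h3 : (ν : ℝ) / p = ν * x := by rw [hx]; ring
  rw [h3]
  push_cast
  nlinarith

theorem main : VLow := by
  intro κ D' P ν hD hP
  refine ⟨?_, bd_ge D' hD⟩
  have h1 : (1 / (D' : ℝ)) ^ (2 * κ) ≤ (BD D') ^ (2 * κ) :=
    pow_le_pow_left₀ (by positivity) (bd_ge D' hD) _
  have hfac : ∀ p ∈ (Icc 1 D').filter Nat.Prime, 0 ≤ 1 - 1 / (p : ℝ) ∧ 1 - 1 / (p : ℝ) ≤ 1 := by
    intro p hp
    have hpp := (Finset.mem_filter.1 hp).2
    have hp1 : (1 : ℝ) ≤ p := by exact_mod_cast hpp.one_lt.le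
    have h2 : 1 / (p : ℝ) ≤ 1 := by
      rw [div_le_one (by linarith)]
      exact hp1
    have h3 : 0 ≤ 1 / (p : ℝ) := by positivity
    constructor <;> linarith
  have hsub : P ⊆ (Icc 1 D').filter Nat.Prime := by
    intro p hp
    obtain ⟨h2, h3, h4, h5⟩ := hP p hp
    exact Finset.mem_filter.2 ⟨Finset.mem_Icc.2 ⟨h2.one_lt.le, h4⟩, h2⟩
  have h2 : BD D' ≤ ∏ p ∈ P, (1 - 1 / (p : ℝ)) := by
    unfold BD
    rw [← Finset.prod_sdiff hsub]
    refine mul_le_of_le_one_left (Finset.prod_nonneg fun p hp => (hfac p (hsub hp)).1) ?_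
    exact Finset.prod_le_one (fun p hp => (hfac p (Finset.mem_sdiff.1 hp).1).1)
      (fun p hp => (hfac p (Finset.mem_sdiff.1 hp).1).2)
  have hBD0 : 0 ≤ BD D' := le_trans (by positivity) (bd_ge D' hD)
  calc (1 / (D' : ℝ)) ^ (2 * κ) ≤ (BD D') ^ (2 * κ) := h1
    _ ≤ (∏ p ∈ P, (1 - 1 / (p : ℝ))) ^ (2 * κ) := pow_le_pow_left₀ hBD0 h2 _
    _ = ∏ p ∈ P, (1 - 1 / (p : ℝ)) ^ (2 * κ) := (Finset.prod_pow _ _ _).symm
    _ ≤ ∏ p ∈ P, (1 - (ν p : ℝ) / p) := by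
        refine Finset.prod_le_prod (fun p hp => pow_nonneg (hfac p (hsub hp)).1 _) fun p hp => ?_
        obtain ⟨h2, h3, h4, h5⟩ := hP p hp
        exact factor κ (ν p) p h3 h5

end W310.UN.VL
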